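import Mathlib
import Pool.Agent.Lib.helper31.L1

namespace Pool.Agent.Results.MP_550623_an.NotHypercyclic

open Filter Topology Finset Pool.Agent.Lib.helper31.Ell

/-- Some orbit is dense. -/
def Hypercyclic {𝕜 X : Type*} [RCLike 𝕜] [NormedAddCommGroup X] [NormedSpace 𝕜 X]
    (S : X →L[𝕜] X) : Prop :=
  ∃ x : X, Dense (Set.range fun n : ℕ => (S ^ n) x)

def sg (k : ℕ) : ℕ := (Nat.unpair k).1

def rr (k : ℕ) : ℕ := k + 2

def NN (k : ℕ) : ℕ :=
  (k + 1) * 3 ^ (2 * rr k) * (2 ^ (2 * rr k) * (2 * rr k) ^ rr k * (2 * rr k + 1) ^ rr k)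

def MM (k : ℕ) : ℕ := NN k ^ (k + 1) + 2

noncomputable def p (n k : ℕ) (x : ℝ) : ℝ := x ^ rr k * (n - x) ^ rr k

noncomputable def cc (n k : ℕ) (g : ℕ → ℝ) : ℝ :=
  if n ≤ NN k then 0 else -((k + 1) * ∑ l ∈ range n, g l) / ∑ l ∈ range n, p n k l

noncomputable def G (n : ℕ) : ℕ → ℕ → ℝ
  | 0 => fun _ => 1
  | k + 1 => fun m =>
      (∑ l ∈ range m, (G n (sg k) l + 1 / (k + 1) * (cc n k (G n (sg k)) * p n k l))) / MM k
decreasing_by all_goals exact Nat.lt_succ_of_le (Nat.unpair_left_le k)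

lemma NN_ge (k : ℕ) : 2 ≤ NN k := by
  have h1 : 2 ≤ 3 ^ (2 * rr k) :=
    le_trans (by norm_num) (Nat.pow_le_pow_right (by norm_num) (show 1 ≤ 2 * rr k by unfold rr; omega))
  have h2 : 0 < 2 ^ (2 * rr k) * (2 * rr k) ^ rr k * (2 * rr k + 1) ^ rr k := by
    unfold rr; positivity
  unfold NN
  calc 2 ≤ 1 * 3 ^ (2 * rr k) * 1 := by omega
    _ ≤ _ := by gcongr <;> omega

lemma p_nonneg (n k l : ℕ) (h : l ≤ n) : 0 ≤ p n k l := by
  have : (0 : ℝ) ≤ n - l := by rw [sub_nonneg]; exact_mod_cast h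
  unfold p; positivity

lemma sum_p (n k : ℕ) (hn : 2 ≤ n) : ((n : ℝ) / 3) ^ (2 * rr k) ≤ ∑ l ∈ range n, p n k l := by
  have h1 : (n : ℝ) / 3 ≤ (n / 2 : ℕ) := by
    have : n ≤ 3 * (n / 2) := by omega
    have : (n : ℝ) ≤ 3 * (n / 2 : ℕ) := by exact_mod_cast this
    linarith
  have h2 : (n : ℝ) / 3 ≤ n - (n / 2 : ℕ) := by
    have : 2 * (n / 2) ≤ n := by omega
    have : 2 * ((n / 2 : ℕ) : ℝ) ≤ n := by exact_mod_cast this
    have : (0 : ℝ) ≤ n := by positivity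
    linarith
  calc ((n : ℝ) / 3) ^ (2 * rr k) = ((n : ℝ) / 3) ^ rr k * ((n : ℝ) / 3) ^ rr k := by
        rw [two_mul, pow_add]
    _ ≤ p n k (n / 2 : ℕ) := by unfold p; gcongr
    _ ≤ _ := single_le_sum (f := fun l : ℕ => p n k l)
        (fun l hl => p_nonneg n k l (mem_range.1 hl).le) (mem_range.2 (by omega))

lemma diff_bound (n k j : ℕ) (hn : 1 ≤ n) (hj : j ≤ 2 * rr k) (y : ℝ) (hy : y = 0 ∨ y = n) :
    |(fwdDiff (1 : ℝ))^[j] (p n k) y| ≤
      (2 ^ (2 * rr k) * (2 * rr k) ^ rr k * (2 * rr k + 1) ^ rr k : ℝ) * n ^ rr k := by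
  have hn' : (1 : ℝ) ≤ n := by exact_mod_cast hn
  set r := rr k
  have hp : ∀ i ∈ range (j + 1), |p n k (y + i • (1 : ℝ))| ≤ (2 * r) ^ r * ((2 * r + 1) * n) ^ r := by
    intro i hi
    have hi' : (i : ℝ) ≤ 2 * r := by exact_mod_cast (Nat.lt_succ_iff.1 (mem_range.1 hi)).trans hj
    have i0 : (0 : ℝ) ≤ i := by positivity
    have r0 : (0 : ℝ) ≤ r := by positivity
    unfold p
    rw [abs_mul, abs_pow, abs_pow, nsmul_eq_mul, mul_one]
    rcases hy with rfl | rfl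
    · gcongr
      · rw [abs_le]; constructor <;> linarith
      · rw [abs_le]; constructor <;> nlinarith
    · rw [mul_comm]
      gcongr
      · rw [abs_le]; constructor <;> linarith
      · rw [abs_le]; constructor <;> nlinarith
  rw [fwdDiff_iter_eq_sum_shift]
  refine (abs_sum_le_sum_abs _ _).trans ?_
  calc _ ≤ ∑ i ∈ range (j + 1), (j.choose i : ℝ) * ((2 * r) ^ r * ((2 * r + 1) * n) ^ r) := by
        refine sum_le_sum fun i hi => ?_
        rw [zsmul_eq_mul, abs_mul]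
        gcongr
        · simp [abs_mul]
        · exact hp i hi
    _ = 2 ^ j * ((2 * r) ^ r * ((2 * r + 1) * n) ^ r) := by
        rw [← sum_mul]; congr 1; exact_mod_cast Nat.sum_range_choose j
    _ ≤ 2 ^ (2 * r) * ((2 * r) ^ r * ((2 * r + 1) * n) ^ r) := by gcongr; norm_num
    _ = _ := by rw [mul_pow (2 * (r : ℝ) + 1)]; ring

lemma diff_zero (n k : ℕ) : (fwdDiff (1 : ℝ))^[2 * rr k + 1] (p n k) = 0 := by
  have h : p n k = (Polynomial.X ^ rr k * (Polynomial.C (n : ℝ) - Polynomial.X) ^ rr k).eval := by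
    funext x; simp [p]
  rw [h]
  apply Polynomial.fwdDiff_iter_eq_zero_of_degree_lt
  have h1 : (Polynomial.C (n : ℝ) - Polynomial.X).natDegree ≤ 1 := by compute_degree
  have h2 := (Polynomial.natDegree_pow_le (p := Polynomial.C (n : ℝ) - Polynomial.X) (n := rr k)).trans
    (Nat.mul_le_mul_left _ h1)
  have h3 := Polynomial.natDegree_mul_le (p := (Polynomial.X : Polynomial ℝ) ^ rr k)
    (q := (Polynomial.C (n : ℝ) - Polynomial.X) ^ rr k)
  rw [Polynomial.natDegree_X_pow] at h3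
  omega

lemma sum_g (n k : ℕ) (g : ℕ → ℝ) (hg : ∀ l ≤ n, |g l| ≤ n ^ k) (m : ℕ) (hm : m ≤ n) :
    |∑ l ∈ range m, g l| ≤ n ^ (k + 1) := by
  refine (abs_sum_le_sum_abs _ _).trans ?_
  calc _ ≤ ∑ _l ∈ range m, (n : ℝ) ^ k :=
        sum_le_sum fun l hl => hg l ((mem_range.1 hl).le.trans hm)
    _ = m * n ^ k := by simp
    _ ≤ n * n ^ k := by gcongr
    _ = _ := by ring

lemma MM_ge (k : ℕ) : (2 : ℝ) ≤ MM k := by unfold MM; push_cast; linarith [show (0:ℝ) ≤ (NN k) ^ (k+1) by positivity]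

lemma G_bound (n : ℕ) (hn : 1 ≤ n) (k : ℕ) : ∀ m ≤ n, |G n k m| ≤ n ^ k := by
  have hn' : (1 : ℝ) ≤ n := by exact_mod_cast hn
  induction k using Nat.strong_induction_on with
  | _ k ih =>
    rcases k with _ | k
    · intro m _; simp [G]
    intro m hm
    have hs : sg k ≤ k := Nat.unpair_left_le k
    have hg : ∀ l ≤ n, |G n (sg k) l| ≤ n ^ k := fun l hl =>
      (ih _ (Nat.lt_succ_of_le hs) l hl).trans (pow_le_pow_right₀ hn' hs)
    have a := sum_g n k _ hg m hm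
    have b := sum_g n k _ hg n le_rfl
    have c : |∑ l ∈ range m, 1 / ((k : ℝ) + 1) * (cc n k (G n (sg k)) * p n k l)| ≤ n ^ (k + 1) := by
      unfold cc
      split_ifs with h
      · simp
      · have hpos : 0 < ∑ l ∈ range n, p n k l :=
          lt_of_lt_of_le (by positivity) (sum_p n k (by have := NN_ge k; omega))
        have h0 : 0 ≤ ∑ l ∈ range m, p n k l :=
          sum_nonneg fun l hl => p_nonneg n k l ((mem_range.1 hl).le.trans hm)
        have h1 : ∑ l ∈ range m, p n k l ≤ ∑ l ∈ range n, p n k l :=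
          sum_le_sum_of_subset_of_nonneg (range_mono hm)
            fun l hl _ => p_nonneg n k l (mem_range.1 hl).le
        rw [← mul_sum, ← mul_sum]
        have e : 1 / ((k : ℝ) + 1) * (-((k + 1) * ∑ l ∈ range n, G n (sg k) l) /
            (∑ l ∈ range n, p n k l) * ∑ l ∈ range m, p n k l) =
            -((∑ l ∈ range n, G n (sg k) l) * ((∑ l ∈ range m, p n k l) / ∑ l ∈ range n, p n k l)) := by
          field_simp
        rw [e, abs_neg, abs_mul, abs_of_nonneg (div_nonneg h0 hpos.le)]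
        exact (mul_le_of_le_one_right (abs_nonneg _) ((div_le_one hpos).2 h1)).trans b
    rw [G]
    simp only
    have hM := MM_ge k
    rw [abs_div, abs_of_pos (by linarith : (0 : ℝ) < MM k), div_le_iff₀ (by linarith), sum_add_distrib]
    refine (abs_add_le _ _).trans ?_
    have : (0 : ℝ) ≤ n ^ (k + 1) := by positivity
    nlinarith

lemma G_sg (n : ℕ) (hn : 1 ≤ n) (k : ℕ) : |∑ l ∈ range n, G n (sg k) l| ≤ n ^ (k + 1) :=
  sum_g n k _ (fun l hl => (G_bound n hn _ l hl).trans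
    (pow_le_pow_right₀ (by exact_mod_cast hn) (Nat.unpair_left_le k))) n le_rfl

lemma G_end (n : ℕ) (hn : 1 ≤ n) (k : ℕ) : |G n k n| ≤ 1 := by
  rcases k with _ | k
  · simp [G]
  have hM := MM_ge k
  rw [G]
  simp only
  rw [abs_div, abs_of_pos (by linarith : (0 : ℝ) < MM k), div_le_one (by linarith), sum_add_distrib,
    ← mul_sum, ← mul_sum]
  unfold cc
  split_ifs with h
  · have : (n : ℝ) ^ (k + 1) ≤ (NN k) ^ (k + 1) := by gcongr
    have b := G_sg n hn k
    unfold MM; push_cast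
    simp only [zero_mul, mul_zero, add_zero]; linarith
  · have hpos : 0 < ∑ l ∈ range n, p n k l :=
      lt_of_lt_of_le (by positivity) (sum_p n k (by have := NN_ge k; omega))
    have e : ∑ l ∈ range n, G n (sg k) l + 1 / ((k : ℝ) + 1) *
        (-((k + 1) * ∑ l ∈ range n, G n (sg k) l) / (∑ l ∈ range n, p n k l) *
          ∑ l ∈ range n, p n k l) = 0 := by
      field_simp; ring
    rw [e]; simp

lemma D_end (n : ℕ) (hn : 1 ≤ n) (k j : ℕ) (hj : j ≤ 2 * rr k) (y : ℝ) (hy : y = 0 ∨ y = n) :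
    |cc n k (G n (sg k)) * (fwdDiff (1 : ℝ))^[j] (p n k) y| ≤ 1 := by
  have a := diff_bound n k j hn hj y hy
  have b := G_sg n hn k
  unfold cc
  split_ifs with h
  · simp
  have c := sum_p n k (by have := NN_ge k; omega)
  have hn0 : (0 : ℝ) < n := by exact_mod_cast hn
  have hpos : 0 < ∑ l ∈ range n, p n k l := lt_of_lt_of_le (by positivity) c
  have hN : (NN k : ℝ) ≤ n := by exact_mod_cast (not_le.1 h).le
  rw [abs_mul, abs_div, abs_neg, abs_mul, abs_of_pos hpos, abs_of_pos (by positivity : (0 : ℝ) < k + 1),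
    div_mul_eq_mul_div, div_le_one hpos]
  refine le_trans ?_ c
  set A : ℝ := 2 ^ (2 * rr k) * (2 * rr k) ^ rr k * (2 * rr k + 1) ^ rr k with hA
  have hN' : (k + 1) * 3 ^ (2 * rr k) * A ≤ n := by
    refine le_trans (le_of_eq ?_) hN
    unfold NN; push_cast; rw [hA]
  calc _ ≤ (k + 1) * n ^ (k + 1) * (A * n ^ rr k) := by gcongr
    _ = ((k + 1) * 3 ^ (2 * rr k) * A) * (n ^ (k + 1) * n ^ rr k / 3 ^ (2 * rr k)) := by field_simp
    _ ≤ n * (n ^ (k + 1) * n ^ rr k / 3 ^ (2 * rr k)) := by gcongr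
    _ = _ := by rw [div_pow]; unfold rr; ring

/-- the index set -/
abbrev I : Type := ℕ ⊕ Σ k : ℕ, Fin (2 * rr k + 1)

variable (𝕜 : Type) [RCLike 𝕜]

noncomputable def t : I → L1 I 𝕜
  | .inl 0 => 0
  | .inl (k + 1) => ((1 / MM k : ℝ) : 𝕜) •
      (e 𝕜 (.inl (sg k)) + ((1 / (k + 1) : ℝ) : 𝕜) • e 𝕜 (.inr ⟨k, 0⟩))
  | .inr ⟨k, j⟩ => if h : j.1 + 1 < 2 * rr k + 1 then e 𝕜 (.inr ⟨k, ⟨j.1 + 1, h⟩⟩) else 0

noncomputable def F (n m : ℕ) : I → ℝ
  | .inl k => G n k m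
  | .inr ⟨k, j⟩ => cc n k (G n (sg k)) * (fwdDiff (1 : ℝ))^[j.1] (p n k) m

lemma t_norm (i : I) : ‖t 𝕜 i‖ ≤ 1 := by
  rcases i with (_ | k) | ⟨k, j⟩
  · simp [t]
  · have hM := MM_ge k
    have h1 : (1 / ((k : ℝ) + 1)) ≤ 1 := by
      rw [div_le_one (by positivity)]; linarith [show (0 : ℝ) ≤ k by positivity]
    have : ‖e 𝕜 (.inl (sg k) : I) + ((1 / (k + 1) : ℝ) : 𝕜) • e 𝕜 (.inr ⟨k, 0⟩)‖ ≤ 2 := by
      refine (norm_add_le _ _).trans ?_
      rw [norm_smul, norm_e, norm_e, RCLike.norm_ofReal, abs_of_pos (by positivity)]; linarith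
    rw [t, norm_smul, RCLike.norm_ofReal, abs_of_pos (by positivity), one_div,
      inv_mul_le_iff₀ (by linarith)]
    linarith
  · rw [t]; split_ifs
    · exact (norm_e _).le
    · simp

lemma F_end (n : ℕ) (hn : 1 ≤ n) (i : I) : |F n 0 i| ≤ 1 ∧ |F n n i| ≤ 1 := by
  rcases i with k | ⟨k, j⟩
  · refine ⟨?_, G_end n hn k⟩
    rcases k with _ | k <;> simp [F, G]
  · exact ⟨D_end n hn k j (Nat.lt_succ_iff.1 j.2) _ (.inl Nat.cast_zero),
      D_end n hn k j (Nat.lt_succ_iff.1 j.2) _ (.inr rfl)⟩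

lemma F_step (n m : ℕ) (ψ : L1 I 𝕜 →L[𝕜] 𝕜) (h : ∀ i, ψ (e 𝕜 i) = (F n m i : ℝ)) (i : I) :
    ψ (e 𝕜 i + t 𝕜 i) = (F n (m + 1) i : ℝ) := by
  rcases i with (_ | k) | ⟨k, j⟩
  · simp [t, h, F, G]
  · simp only [t, map_add, map_smul, h, F, smul_eq_mul]
    rw [G]
    simp only [sum_range_succ, Fin.val_zero, Function.iterate_zero, id]
    push_cast; ring
  · have key : F n (m + 1) (.inr ⟨k, j⟩) = F n m (.inr ⟨k, j⟩) +
        cc n k (G n (sg k)) * (fwdDiff (1 : ℝ))^[j.1 + 1] (p n k) m := by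
      rw [Function.iterate_succ_apply', fwdDiff]; simp only [F]; push_cast; ring
    rw [key, t, map_add, h]
    split_ifs with hj
    · rw [h]; simp only [F]; push_cast; ring
    · have : j.1 + 1 = 2 * rr k + 1 := by have := j.2; omega
      rw [this, diff_zero]; simp

theorem result (𝕜 : Type) [RCLike 𝕜] :
    ∃ (X : Type) (_ : NormedAddCommGroup X) (_ : NormedSpace 𝕜 X) (_ : CompleteSpace X)
      (_ : TopologicalSpace.SeparableSpace X) (_ : Nontrivial X) (T : X →L[𝕜] X),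
      DenseRange T ∧ Dense {x | ∃ n ≥ 1, (T ^ n) x = 0} ∧ ¬ Hypercyclic (1 + T) := by
  obtain ⟨T, hT⟩ := exists_lift (𝕜 := 𝕜) (t 𝕜) 1 (t_norm 𝕜)
  have nt : Nontrivial (L1 I 𝕜) := ⟨e 𝕜 (.inl 0), 0, fun h => by
    have := norm_e (𝕜 := 𝕜) (.inl 0 : I); rw [h] at this; simp at this⟩
  refine ⟨L1 I 𝕜, inferInstance, inferInstance, inferInstance, separable, nt, T, ?_, ?_, ?_⟩
  · let W := (LinearMap.range (T : L1 I 𝕜 →ₗ[𝕜] L1 I 𝕜))
    have hW : ∀ i, t 𝕜 i ∈ W := fun i => ⟨_, hT i⟩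
    have h1 : ∀ k : ℕ, e 𝕜 (.inl (sg k)) + ((1 / (k + 1) : ℝ) : 𝕜) • e 𝕜 (.inr ⟨k, 0⟩ : I) ∈ W := by
      intro k
      have hM := MM_ge k
      have := W.smul_mem ((MM k : ℝ) : 𝕜) (hW (.inl (k + 1)))
      rwa [t, smul_smul, ← RCLike.ofReal_mul, mul_one_div_cancel (by linarith), RCLike.ofReal_one,
        one_smul] at this
    have h2 : ∀ j, e 𝕜 (.inl j : I) ∈ closure (W : Set (L1 I 𝕜)) := by
      intro j
      refine Metric.mem_closure_iff.2 fun ε hε => ?_
      obtain ⟨i, hi⟩ := exists_nat_one_div_lt hε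
      have := h1 (Nat.pair j i)
      rw [show sg (Nat.pair j i) = j by simp [sg]] at this
      refine ⟨_, this, ?_⟩
      rw [dist_self_add_right, norm_smul, norm_e, RCLike.norm_ofReal, abs_of_pos (by positivity),
        mul_one]
      refine lt_of_le_of_lt ?_ hi
      gcongr
      exact Nat.right_le_pair j i
    refine dense_of W fun i => ?_
    rcases i with j | ⟨k, ⟨_ | j, hj⟩⟩
    · exact h2 j
    · have a := W.topologicalClosure.smul_mem (((k + 1 : ℝ)) : 𝕜)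
        (W.topologicalClosure.sub_mem (W.le_topologicalClosure (h1 k)) (h2 (sg k)))
      rwa [add_sub_cancel_left, smul_smul, ← RCLike.ofReal_mul, mul_one_div_cancel (by positivity),
        RCLike.ofReal_one, one_smul] at a
    · have := hW (.inr ⟨k, ⟨j, by omega⟩⟩)
      rw [t, dif_pos hj] at this
      exact subset_closure this
  · let W : Submodule 𝕜 (L1 I 𝕜) :=
      { carrier := {x | ∃ n ≥ 1, (T ^ n) x = 0}
        zero_mem' := ⟨1, le_rfl, by simp⟩
        smul_mem' := fun c x ⟨n, hn, h⟩ => ⟨n, hn, by rw [map_smul, h, smul_zero]⟩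
        add_mem' := fun {x y} ⟨n, hn, h⟩ ⟨m, _, h'⟩ => ⟨n + m, by omega, by
          rw [map_add]
          conv_lhs => rw [add_comm n m, pow_add, mul_apply_eq_comp, h, map_zero, zero_add,
            ← pow_add, add_comm m n, pow_add, mul_apply_eq_comp, h', map_zero]⟩ }
    have back : ∀ i, t 𝕜 i ∈ W → e 𝕜 i ∈ W := fun i ⟨n, _, h⟩ =>
      ⟨n + 1, by omega, by rw [pow_succ, mul_apply_eq_comp, hT, h]⟩
    have hD : ∀ k d (j : Fin (2 * rr k + 1)), j.1 + d = 2 * rr k → e 𝕜 (.inr ⟨k, j⟩ : I) ∈ W := by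
      intro k d
      induction d with
      | zero => intro j hj; apply back; rw [t, dif_neg (by omega)]; exact W.zero_mem
      | succ d ih =>
        intro j hj; apply back; rw [t, dif_pos (by omega)]; exact ih _ (by simp only; omega)
    have hY : ∀ k, e 𝕜 (.inl k : I) ∈ W := by
      intro k
      induction k using Nat.strong_induction_on with
      | _ k ih =>
        apply back
        rcases k with _ | k
        · exact W.zero_mem
        · exact W.smul_mem _ (W.add_mem (ih _ (Nat.lt_succ_of_le (Nat.unpair_left_le k)))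
            (W.smul_mem _ (hD k (2 * rr k) 0 (by simp))))
    refine dense_of W fun i => subset_closure ?_
    rcases i with j | ⟨k, j⟩
    · exact hY j
    · exact hD k (2 * rr k - j.1) j (by have := j.2; omega)
  · have key : ∀ n ≥ 1, ∀ x, ‖x - e 𝕜 (.inl 0)‖ < 1 / 2 → ¬ ‖((1 + T) ^ n) x‖ < 1 / 2 := by
      intro n hn x hx hy
      obtain ⟨φ, hφ⟩ := exists_lift (𝕜 := 𝕜) (fun i => ((F n 0 i : ℝ) : 𝕜)) 1
        fun i => by rw [RCLike.norm_ofReal]; exact (F_end n hn i).1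
      have hm : ∀ m i, (φ.comp ((1 + T) ^ m)) (e 𝕜 i) = (F n m i : ℝ) := by
        intro m
        induction m with
        | zero => simpa using hφ
        | succ m ih =>
          intro i
          rw [← F_step 𝕜 n m _ ih i, pow_succ, ← hT]; rfl
      have a := norm_le φ 1 (fun i => by rw [hφ, RCLike.norm_ofReal]; exact (F_end n hn i).1)
        (((1 + T) ^ n) x)
      have b := norm_le (φ.comp ((1 + T) ^ n)) 1
        (fun i => by rw [hm, RCLike.norm_ofReal]; exact (F_end n hn i).2) (x - e 𝕜 (.inl 0))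
      rw [map_sub, hm] at b
      have c : ‖((F n n (.inl 0) : ℝ) : 𝕜)‖ = 1 := by simp [F, G]
      have d := norm_sub_norm_le ((F n n (.inl 0) : ℝ) : 𝕜) (φ (((1 + T) ^ n) x))
      rw [norm_sub_rev] at d
      simp only [ContinuousLinearMap.comp_apply] at b
      linarith
    rintro ⟨x, hx⟩
    obtain ⟨_, ⟨a, rfl⟩, ha⟩ := Metric.dense_iff.1 hx (e 𝕜 (.inl 0)) (1 / 2) (by norm_num) |>.imp
      fun _ h => And.symm h
    let _ : NormedSpace ℝ (L1 I 𝕜) := NormedSpace.restrictScalars ℝ 𝕜 _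
    have fin : ((fun n : ℕ => ((1 + T) ^ n) x) '' Set.Iic a).Finite := (Set.finite_Iic a).image _
    obtain ⟨_, hb, ⟨b, rfl⟩, hb'⟩ := Metric.dense_iff.1 (hx.sdiff_finite fin) 0 (1 / 2) (by norm_num)
    have hab : a < b := by
      by_contra h; exact hb' ⟨b, not_lt.1 h, rfl⟩
    obtain ⟨n, rfl⟩ := Nat.exists_eq_add_of_lt hab
    refine key (n + 1) (by omega) _ (mem_ball_iff_norm.1 ha) ?_
    rw [← mul_apply_eq_comp, ← pow_add, show n + 1 + a = a + n + 1 by ring]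
    simpa using hb

end Pool.Agent.Results.MP_550623_an.NotHypercyclic
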